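import Pool.Agent.Helper14.W3.StB

/-!
# Module HkW of project W3: the Hecke operators commute with the Fricke involution
-/

set_option autoImplicit false

namespace Pool.Agent.Helper16.W3

open Pool.Agent.Helper14.CV Pool.Agent.Helper14.W3

/-- the representatives `W std_P W⁻¹` -/
private def dW (n l : ℕ) (P : Fin (l + 1)) : Matrix (Fin 2) (Fin 2) ℤ :=
  if (P : ℕ) < l then !![(l : ℤ), 0; -(3 ^ n * ((P : ℕ) : ℤ)), 1] else !![1, 0; 0, (l : ℤ)]

private theorem dW_lt (n l : ℕ) (P : Fin (l + 1)) (h : (P : ℕ) < l) :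
    dW n l P = !![(l : ℤ), 0; -(3 ^ n * ((P : ℕ) : ℤ)), 1] := if_pos h

private theorem dW_ge (n l : ℕ) (P : Fin (l + 1)) (h : ¬ (P : ℕ) < l) :
    dW n l P = !![1, 0; 0, (l : ℤ)] := if_neg h

private theorem tlW (hHk : S3Hk) (R : Type) [AddCommGroup R] (n l : ℕ) (G : ℤ → ℤ → R) (hl : l.Prime)
    (h2 : l ≠ 3) (hG : Sym3 0 n G) :
    EqC (Tl l 1 (act 0 (-1) (3 ^ n) 0 G)) (act 0 (-1) (3 ^ n) 0 (Tl l 1 G)) := by
  have hlz : Prime (l : ℤ) := Nat.prime_iff_prime_int.mp hl
  have hl1 : ¬ (l : ℤ) ∣ 1 := by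
    intro h
    exact hlz.not_isUnit (isUnit_of_dvd_one h)
  have hl2 : ¬ (l : ℤ) ∣ 3 ^ n := by
    intro h
    have h3 := hlz.dvd_of_dvd_pow h
    have h4 : l ∣ 3 := by exact_mod_cast h3
    rcases (Nat.dvd_prime Nat.prime_three).1 h4 with h5 | h5
    · exact hl.one_lt.ne' h5
    · exact h2 h5
  have h1 := hHk R inferInstance n l G hl h2 hG (dW n l) ?_ ?_ ?_
  · have h3 := h1.act (a := 0) (b := -1) (c := 3 ^ n) (d := 0) (by simp)
    refine EqC.trans ?_ h3
    refine EqC.of_eq fun p q _ => ?_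
    unfold Tl act
    beta_reduce
    rw [Fin.sum_univ_castSucc, Finset.sum_range, add_comm]
    congr 1
    · refine Finset.sum_congr rfl fun i _ => ?_
      rw [dW_lt n l _ (by simp)]
      simp only [Matrix.cons_val', Matrix.cons_val_zero, Matrix.cons_val_one, Matrix.of_apply,
        Matrix.cons_val_fin_one, Fin.val_castSucc]
      congr 1 <;> ring
    · rw [dW_ge n l _ (by simp)]
      simp only [Matrix.cons_val', Matrix.cons_val_zero, Matrix.cons_val_one, Matrix.of_apply,
        Matrix.cons_val_fin_one]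
      congr 1 <;> ring
  · intro P
    by_cases h : (P : ℕ) < l
    · rw [dW_lt n l P h, Matrix.det_fin_two_of]
      ring
    · rw [dW_ge n l P h, Matrix.det_fin_two_of]
      ring
  · intro P
    by_cases h : (P : ℕ) < l
    · rw [dW_lt n l P h]
      show (3 : ℤ) ^ n ∣ -(3 ^ n * ((P : ℕ) : ℤ))
      exact (dvd_neg).2 (dvd_mul_right _ _)
    · rw [dW_ge n l P h]
      show (3 : ℤ) ^ n ∣ 0
      exact dvd_zero _
  · intro P P' hP hd
    by_cases h : (P : ℕ) < l
    · by_cases h' : (P' : ℕ) < l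
      · rw [dW_lt n l P h, dW_lt n l P' h', Matrix.adjugate_fin_two_of] at hd
        have h3 := hd 1 0
        simp only [Matrix.mul_apply, Fin.sum_univ_two, Matrix.cons_val', Matrix.cons_val_zero,
          Matrix.cons_val_one, Matrix.of_apply, Matrix.cons_val_fin_one] at h3
        have h4 : (l : ℤ) ∣ 3 ^ n * (((P' : ℕ) : ℤ) - ((P : ℕ) : ℤ)) := by
          convert h3 using 1
          ring
        rcases hlz.dvd_or_dvd h4 with h5 | h5
        · exact hl2 h5
        · have h6 : (((P' : ℕ) : ℤ) - ((P : ℕ) : ℤ)) = 0 := by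
            apply Int.eq_zero_of_abs_lt_dvd h5
            rw [abs_lt]
            omega
          apply hP
          apply Fin.ext
          omega
      · rw [dW_lt n l P h, dW_ge n l P' h', Matrix.adjugate_fin_two_of] at hd
        have h3 := hd 1 1
        simp only [Matrix.mul_apply, Fin.sum_univ_two, Matrix.cons_val', Matrix.cons_val_zero,
          Matrix.cons_val_one, Matrix.of_apply, Matrix.cons_val_fin_one] at h3
        apply hl1
        convert h3 using 1
        ring
    · by_cases h' : (P' : ℕ) < l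
      · rw [dW_ge n l P h, dW_lt n l P' h', Matrix.adjugate_fin_two_of] at hd
        have h3 := hd 0 0
        simp only [Matrix.mul_apply, Fin.sum_univ_two, Matrix.cons_val', Matrix.cons_val_zero,
          Matrix.cons_val_one, Matrix.of_apply, Matrix.cons_val_fin_one] at h3
        apply hl1
        convert h3 using 1
        ring
      · apply hP
        apply Fin.ext
        have e1 := P.isLt
        have e2 := P'.isLt
        omega

/-- Module HkW. -/
theorem hHkW (hHk : S3Hk) (hHkS : S3HkS) : S3HkW := by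
  intro R _ n G hG
  have key : ∀ l : ℕ, l.Prime → l ≠ 3 →
      EqC (Tl l 1 (act 0 (-1) (3 ^ n) 0 G)) (act 0 (-1) (3 ^ n) 0 (Tl l 1 G)) :=
    fun l hl h2 => tlW hHk R n l G hl h2 hG
  refine ⟨key, ?_⟩
  have h7 := key 7 (by norm_num) (by norm_num)
  have h2 := key 2 (by norm_num) (by norm_num)
  have hS : Sym3 0 n (Tl 2 1 G) := (hHkS R inferInstance n G hG).1 2 (by norm_num) (by norm_num)
  have h22 := tlW hHk R n 2 (Tl 2 1 G) (by norm_num) (by norm_num) hS
  have h3 : EqC (Tl 2 1 (Tl 2 1 (act 0 (-1) (3 ^ n) 0 G)))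
      (act 0 (-1) (3 ^ n) 0 (Tl 2 1 (Tl 2 1 G))) :=
    (h2.Tl (l := 2) (by norm_num) 1).trans h22
  exact (h7.add (EqC.refl _)).sub h3

end Pool.Agent.Helper16.W3
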